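import Mathlib
import Pool.Agent.Y733.VH.Cnt
import Pool.Agent.W469.CV.REL
import Pool.Agent.W223.AC.MasterK
import Pool.Agent.W223.AC.Split
import Pool.Agent.W976.AC.EX
import Pool.Agent.W460.AC.NORM
import Pool.Agent.W597.AC.LOC
import Pool.Agent.W193.AC.FINQ
import Pool.Agent.W398.AC.DIM
import Pool.Agent.W131.AC.GROW
import Pool.Agent.W989.AC.MULT
import Pool.Agent.W410.AC.HTG
import Pool.Agent.W803.AC.SUMN
import Pool.Agent.W756.AC.LOCP
import Pool.Agent.W223.AC.SUMP

/-!
# Vojta's height inequality on all curves for points of unbounded degree, with absolute constants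

Let `C` be a smooth projective curve over a number field, `D` a reduced effective divisor on `C`
and `t : C → ℙ¹` a finite map of degree `N` over `ℚ` which is unramified outside the fibres over
finitely many rational points `a_1, …, a_q`, `q ≥ 3`, and maps the points of `D` to the `a_j` (such
a map exists by Belyi's theorem, with `q = 3`; we may suppose that `a_j ≠ ∞`). Let `A` be the ring
of functions on `C` with poles only over `∞`: a Dedekind domain, finite over `ℚ[t]`. Let
`y_{j 0} = t - a_j, y_{j 1}, …` be generators of the radical of the ideal `(t - a_j)`, the ideal of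
the reduced fibre `F_j` over `a_j`. Then `F = ∑ F_j ≥ D` and
`(deg K_C) / N = q - 2 - (∑_j dim (A / (y_{j 0}, y_{j 1}, …))) / N`.

The points `P` of `C` (not over `∞`) over a number field `L` are the homomorphisms `φ : A → L`, and
`λ_v(P) = ∑_j max(0, - log max_i |y_{j i}(P)|_v)` is a Weil function of `F` at `v`.

All number fields `K`, of all degrees `n`, are considered at once: the constants below depend only
on the curve, the map, `ε` and `c`, and not on `K` or `n`. Let `0 ≤ θ ≤ 2`. We prove that for all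
but at most `(C B ^ (2 - 2 θ / q - ε / (2 q))) ^ n` of the elements `x` of `K` of absolute height at
most `B` the following holds: all points `P` of `C` with `t(P) = x`, all number fields `L` over
which `P` is defined and all finite sets `S` of primes satisfy
`m_S(F, P) + (2 - θ + (deg K_C) / N) h(x) ≤ d(L) + ε h(x) + ∑_{p ∈ S} log p + c`.
For `θ = 2` this is Vojta's inequality `m_S(F, P) + h_{K_C}(P) ≤ d(P) + ε h(P) + c_S`, with at most
`(C B ^ (2/3)) ^ n` exceptional `x` if `q = 3`; for `θ = 0` it is stronger by `2 h(x)`, and still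
holds for almost all `x`: there are about `(B ^ 2 / δ_K) ^ n` elements `x`, where `δ_K` is the root
discriminant.

Proof. If the inequality fails, then the truncated counting function of `[a_1] + … + [a_q]` at `x`
is smaller than `(q - θ - ε / 2) n h(x) + C n`; this part is the one of
MP_6f1c57_nt.AllHeightsProximity (helper557 and the authors of the libraries `AC`, `CV`), where no
constant depends on `K`. Then there are two indices `i ≠ j` such that the radical of the numerator
and denominator of the image of `x` under the Moebius map which takes `a_i`, `a_j` to `0`, `∞` is at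
most `(2 / q) ((q - θ - ε / 2) n h(x) + C n)`. The number of such elements is estimated by
the counts of ideals and units of `Y733/UD`, which are uniform in all number fields.
-/

set_option autoImplicit false
set_option linter.unusedSectionVars false

namespace Pool.Agent.Results.MP_6f1c57_nt.AllFieldsHeightInequality

open Polynomial IsDedekindDomain NumberField

/-- The absolute logarithmic Weil height `h(x)`. -/
noncomputable def height {K : Type} [Field K] [NumberField K] (x : K) : ℝ :=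
  (1 / (Module.finrank ℚ K : ℝ)) *
    ((∑ w : InfinitePlace K, (w.mult : ℝ) * Real.log (max 1 (w x))) +
      ∑ᶠ v : HeightOneSpectrum (𝓞 K), Real.log (max 1 (FinitePlace.mk v x)))

/-- the function `t` -/
noncomputable def coord (A : Type) [CommRing A] [Algebra ℚ[X] A] : A := algebraMap ℚ[X] A X

/-- `max (0, - log max_i c_i)` -/
noncomputable def minusLog {s : ℕ} (c : Fin (s + 1) → ℝ) : ℝ := max 0 (-Real.log (⨆ i, c i))

open Classical in
/-- The proximity function `m_S(F, P)`: the sum over the infinite places `w` (with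
`mult w = [L_w : ℝ]`) and the primes `v` above the primes of `S` of the local heights
`∑_j max (0, - log max_i |y_{j i}(P)|)`, divided by `[L : ℚ]`. The absolute values are normalised
so that the product formula holds: `|b|_v = N(v) ^ (- v(b))`. -/
noncomputable def proximity {A : Type} [CommRing A] (S : Finset ℕ) {q : ℕ}
    (u : Fin q → ℕ) (y : ∀ j, Fin (u j + 1) → A)
    (L : Type) [Field L] [NumberField L] (φ : A →+* L) : ℝ :=
  ((∑ w : InfinitePlace L, (w.mult : ℝ) * ∑ j, minusLog (fun i => w (φ (y j i)))) +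
    ∑ᶠ v : HeightOneSpectrum (𝓞 L), if ∃ p ∈ S, (p : 𝓞 L) ∈ v.asIdeal then
      ∑ j, minusLog (fun i => FinitePlace.mk v (φ (y j i))) else 0) / Module.finrank ℚ L

/-- The logarithmic discriminant `d(L) = log |disc L| / [L : ℚ]`. -/
noncomputable def logDisc (L : Type) [Field L] [NumberField L] : ℝ :=
  Real.log |(NumberField.discr L : ℝ)| / Module.finrank ℚ L

/-- `q - (∑_j dim (A / (y_{j 0}, y_{j 1}, …))) / N`, where `N` is the rank of `A` over `ℚ[t]`: the
number `2 + (deg K_C) / N`. -/
noncomputable def degree {A : Type} [CommRing A] [Algebra ℚ A] [Algebra ℚ[X] A] {q : ℕ}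
    (u : Fin q → ℕ) (y : ∀ j, Fin (u j + 1) → A) : ℝ :=
  q - (∑ j, (Module.finrank ℚ (A ⧸ Ideal.span (Set.range (y j))) : ℝ)) / Module.finrank ℚ[X] A

/-- the root discriminant `δ_K` -/
noncomputable def rootDisc (K : Type) [Field K] [NumberField K] : ℝ :=
  |(NumberField.discr K : ℝ)| ^ (1 / (Module.finrank ℚ K : ℝ))

/-- the elements of `K` of absolute height at most `B` -/
def Elts (K : Type) [Field K] [NumberField K] (B : ℝ) : Set K := {x | height x ≤ Real.log B}

/-- The elements `x` of `K` of absolute height at most `B`, different from the `a_j`, over which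
there is a point `P = φ` of the curve, defined over a number field `L` which contains `K`, such that
`m_S(F, P) + (degree - θ) * h(x) ≤ d(L) + ε h(x) + ∑_{p ∈ S} log p + c` fails for some finite set
`S` of primes. -/
def Exceptions (K : Type) [Field K] [NumberField K] {A : Type} [CommRing A] [Algebra ℚ A]
    [Algebra ℚ[X] A] {q : ℕ} (a : Fin q → ℚ) (u : Fin q → ℕ)
    (y : ∀ j, Fin (u j + 1) → A) (θ ε c B : ℝ) : Set K :=
  {x | x ∈ Elts K B ∧ (∀ j, x ≠ (a j : K)) ∧
    ∃ (L : Type) (_ : Field L) (_ : NumberField L) (_ : Algebra K L)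
    (φ : A →+* L) (S : Finset ℕ), φ (coord A) = algebraMap K L x ∧ (∀ p ∈ S, p.Prime) ∧
      logDisc L + ε * height x + ∑ p ∈ S, Real.log p + c <
        proximity S u y L φ + (degree u y - θ) * height x}

open Classical in
lemma proximity_eq {A : Type} [CommRing A] (S : Finset ℕ) {q : ℕ}
    (u : Fin q → ℕ) (y : ∀ j, Fin (u j + 1) → A)
    (L : Type) [Field L] [NumberField L] (φ : A →+* L)
    (hf : ∀ j, {v : HeightOneSpectrum (𝓞 L) | Pool.Agent.W223.AC.lamF (y j) φ v ≠ 0}.Finite) :
    proximity S u y L φ = (∑ j, (∑ w : InfinitePlace L, (w.mult : ℝ) *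
      Pool.Agent.W223.AC.lamI (y j) φ w + Pool.Agent.W223.AC.mS S (y j) φ)) /
        Module.finrank ℚ L := by
  unfold proximity
  refine congrArg (fun t : ℝ => t / Module.finrank ℚ L) ?_
  rw [Finset.sum_add_distrib]
  congr 1
  · rw [Finset.sum_comm]
    refine Finset.sum_congr rfl fun w _ => ?_
    rw [Finset.mul_sum]
    rfl
  · unfold Pool.Agent.W223.AC.mS
    rw [← finsum_sum_comm]
    · refine finsum_congr fun v => ?_
      split_ifs
      · rfl
      · rw [Finset.sum_const_zero]
    · intro j _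
      refine (hf j).subset fun v hv => ?_
      rw [Function.mem_support] at hv
      intro h
      apply hv
      rw [h, ite_self]

theorem height_eq {K : Type} [Field K] [NumberField K] (x : K) :
    Real.log (Height.mulHeight₁ x) = Module.finrank ℚ K * height x :=
  Pool.Agent.W223.AC.MK.height_eq x

/-- the exceptions are roots of a polynomial or exceptional values -/
theorem exceptions_sub {A : Type} [CommRing A] [IsDedekindDomain A] [Algebra ℚ A] [Algebra ℚ[X] A]
    [IsScalarTower ℚ ℚ[X] A] [Module.Finite ℚ[X] A] [FaithfulSMul ℚ[X] A]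
    {q : ℕ} (hq : 3 ≤ q) (a : Fin q → ℚ)
    (u : Fin q → ℕ) (y : ∀ j, Fin (u j + 1) → A)
    (hy0 : ∀ j, y j 0 = coord A - algebraMap ℚ[X] A (C (a j)))
    (hyr : ∀ j i, y j i ∈ (Ideal.span {coord A - algebraMap ℚ[X] A (C (a j))}).radical)
    {θ κ : ℝ} (hκ : 0 < κ) (c : ℝ) :
    ∃ (M : ℕ) (G : ℚ[X]) (C₁ : ℝ), G ≠ 0 ∧
      ∀ (K : Type) [Field K] [NumberField K] (B : ℝ) (x : K), x ∈ Exceptions K a u y θ κ c B →
        aeval x G = 0 ∨ Pool.Agent.W223.VD.cnt M.primeFactors
          (fun j => Pool.Agent.W223.AC.pt (a j)) x ≤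
            (q - θ - κ / 2) * (Module.finrank ℚ K * height x) + Module.finrank ℚ K * C₁ := by
  classical
  have hq0 : (3 : ℝ) ≤ q := by exact_mod_cast hq
  have hqp : (0 : ℝ) < q := by linarith
  obtain ⟨M, Ck, G, hM, hCk, hG, hkey⟩ := Pool.Agent.W223.AC.keyG
    (Pool.Agent.W223.AC.nbp (Pool.Agent.W976.AC.EX.t Pool.Agent.W398.AC.DIM.t
      Pool.Agent.W193.AC.FINQ.t Pool.Agent.W989.AC.MULT.t) Pool.Agent.W756.AC.t
      (Pool.Agent.W410.AC.t Pool.Agent.W131.AC.t) Pool.Agent.W223.AC.SUMP.t
      Pool.Agent.W460.AC.t)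
    Pool.Agent.W989.AC.MULT.t Pool.Agent.W597.AC.t A a (fun j : Fin q => j) u y hy0
    (by
      intro k
      have h1 : (Finset.univ.filter fun l : Fin q => l = k) = {k} := by
        ext l
        simp
      rw [h1, Finset.prod_singleton, Ideal.span_le]
      rintro _ ⟨i, rfl⟩
      exact hyr k i) (κ / 2 / q) (by positivity)
  refine ⟨M, G, q * Ck - c, hG, fun K _ _ B => ?_⟩
  obtain ⟨C₀, hC₀⟩ : ∃ C₀ : ℝ, C₀ = c + Real.log |(discr K : ℝ)| / Module.finrank ℚ K := ⟨_, rfl⟩
  rintro x ⟨-, hx, L, _, _, _, φ, S, hφ, hS, hv⟩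
  by_cases hGx : aeval x G = 0
  · exact Or.inl hGx
  right
  obtain ⟨S', hS'⟩ : ∃ S', S' = M.primeFactors := ⟨_, rfl⟩
  rw [← hS']
  obtain ⟨P, hP⟩ : ∃ P : Fin q → ℤ × ℤ, P = fun j => Pool.Agent.W223.AC.pt (a j) := ⟨_, rfl⟩
  rw [← hP]
  have hne : ∀ k, φ (coord A) ≠ (a k : L) := by
    intro k h
    rw [hφ] at h
    apply hx k
    apply FaithfulSMul.algebraMap_injective K L
    rw [h, map_ratCast]
  have hGL : aeval (φ (coord A)) G ≠ 0 := by
    rw [hφ, aeval_algebraMap_apply]
    intro h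
    rw [map_eq_zero] at h
    exact hGx h
  obtain ⟨hk1, hk2⟩ := hkey L φ hGL hne
  have hz0 : ∀ l, φ (y l 0) ≠ 0 := by
    intro l
    rw [hy0 l, map_sub]
    have : φ (algebraMap ℚ[X] A (Polynomial.C (a l))) = (a l : L) :=
      eq_ratCast (φ.comp ((algebraMap ℚ[X] A).comp Polynomial.C)) (a l)
    rw [this]
    exact sub_ne_zero.mpr (hne l)
  have hnf : ∀ l, {v : HeightOneSpectrum (𝓞 L) | Pool.Agent.W223.AC.NearP (y l) φ v}.Finite :=
    fun l => Pool.Agent.W223.AC.near_finite (y l) φ (hz0 l)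
  have hnfU : {v : HeightOneSpectrum (𝓞 L) | ∃ l ∈ (Finset.univ : Finset (Fin q)),
      Pool.Agent.W223.AC.NearP (y l) φ v}.Finite := by
    refine (Set.finite_iUnion fun l => hnf l).subset ?_
    rintro v ⟨l, -, hv⟩
    exact Set.mem_iUnion.mpr ⟨l, hv⟩
  have hk1 := ((hk1 ∅).trans (Pool.Agent.W223.CV.cc_mono (Finset.empty_subset ∅) hnfU
    fun v _ h => h)).trans ((Pool.Agent.W223.AC.cc_outside Pool.Agent.W803.AC.t S hS _ hnfU).trans
    (add_le_add_left (Pool.Agent.W223.CV.cc_exists S Finset.univ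
      (fun l (v : HeightOneSpectrum (𝓞 L)) => Pool.Agent.W223.AC.NearP (y l) φ v) hnf) _))
  have hlin : ∀ j, Pool.Agent.W223.CV.lin (P j) x ≠ 0 := by
    intro j h
    rw [hP] at h
    unfold Pool.Agent.W223.CV.lin Pool.Agent.W223.AC.pt at h
    have h11 : ((a j : ℚ) : K) = (((a j).num : ℤ) : K) / (((a j).den : ℤ) : K) := by
      have := Rat.cast_def (K := K) (a j)
      push_cast
      exact this
    have h12 : (((a j).den : ℤ) : K) ≠ 0 := by exact_mod_cast (a j).den_nz
    apply hx j
    rw [h11, eq_div_iff h12]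
    exact (sub_eq_zero.mp h).symm
  -- base change to `L`
  have hrel := Pool.Agent.W469.CV.REL.t K L q S' P x hlin
  rw [← hφ] at hrel
  obtain ⟨d, hd⟩ : ∃ d : ℝ, d = (Module.finrank ℚ K : ℝ) := ⟨_, rfl⟩
  obtain ⟨m, hm⟩ : ∃ m : ℝ, m = (Module.finrank K L : ℝ) := ⟨_, rfl⟩
  have hd0 : 0 < d := by rw [hd]; exact_mod_cast Module.finrank_pos
  have hm0 : 0 < m := by rw [hm]; exact_mod_cast Module.finrank_pos
  have htow : (Module.finrank ℚ L : ℝ) = d * m := by
    rw [hd, hm]
    exact_mod_cast (Module.finrank_mul_finrank ℚ K L).symm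
  obtain ⟨H, hH⟩ : ∃ H : ℝ, H = Real.log (Height.mulHeight₁ x) := ⟨_, rfl⟩
  have hHx : height x = H / d := by
    rw [hH, height_eq, ← hd, mul_div_cancel_left₀ _ hd0.ne']
  have hHξ : Real.log (Height.mulHeight₁ (φ (coord A))) = m * H := by
    rw [hφ, Pool.Agent.W223.AC.MK.log_height_ext L x, ← hm, ← hH]
  obtain ⟨μ, hμ⟩ : ∃ μ : ℝ, μ = (∑ j, (Module.finrank ℚ
    (A ⧸ Ideal.span (Set.range (y j))) : ℝ)) / Module.finrank ℚ[X] A := ⟨_, rfl⟩
  have hdm : 0 < d * m := mul_pos hd0 hm0
  obtain ⟨W, hW⟩ : ∃ W : ℝ, W = ∑ j, (∑ w : InfinitePlace L, (w.mult : ℝ) *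
      Pool.Agent.W223.AC.lamI (y j) φ w + Pool.Agent.W223.AC.mS S (y j) φ) := ⟨_, rfl⟩
  obtain ⟨R, hR⟩ : ∃ R : ℝ, R = ∑ p ∈ S, Real.log p := ⟨_, rfl⟩
  rw [proximity_eq S u y L φ fun j => (hk2 j).1, ← hW, htow, ← hR] at hv
  -- the sum over the fibres
  have h5 : ∀ l, Pool.Agent.W223.CV.cc S (fun v : HeightOneSpectrum (𝓞 L) =>
        Pool.Agent.W223.AC.NearP (y l) φ v) +
      (∑ w : InfinitePlace L, (w.mult : ℝ) * Pool.Agent.W223.AC.lamI (y l) φ w +
        Pool.Agent.W223.AC.mS S (y l) φ) ≤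
      ((Module.finrank ℚ (A ⧸ Ideal.span (Set.range (y l))) : ℝ) /
          Module.finrank ℚ[X] A + κ / 2 / q) * (m * H) + d * m * Ck := by
    intro l
    obtain ⟨h6, h7⟩ := hk2 l
    have h8 := Pool.Agent.W223.AC.split_prox (y l) φ S (hz0 l) h6
    have h9 : Real.log (Height.mulHeight₁ (φ (Pool.Agent.W223.AC.tt A))) = m * H := hHξ
    rw [h9, htow] at h7
    linarith
  have h6 := Finset.sum_le_sum fun l (_ : l ∈ Finset.univ) => h5 l
  rw [Finset.sum_add_distrib, ← hW] at h6
  have h7 : ∑ l, (((Module.finrank ℚ (A ⧸ Ideal.span (Set.range (y l))) : ℝ) /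
          Module.finrank ℚ[X] A + κ / 2 / q) * (m * H) + d * m * Ck) =
      (μ + κ / 2) * (m * H) + q * (d * m * Ck) := by
    rw [Finset.sum_add_distrib, ← Finset.sum_mul, Finset.sum_add_distrib, ← Finset.sum_div,
      Finset.sum_const, Finset.sum_const, Finset.card_univ, Fintype.card_fin, nsmul_eq_mul,
      nsmul_eq_mul, ← hμ]
    congr 2
    field_simp
  rw [h7] at h6
  have e7 : logDisc L = Real.log |(discr L : ℝ)| / (d * m) := by
    rw [← htow]
    rfl
  have e8 : degree u y = q - μ := by rw [hμ]; rfl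
  have hv : Real.log |(discr L : ℝ)| / (d * m) - Real.log |(discr K : ℝ)| / d + R + C₀ <
      W / (d * m) + (q - μ - θ - κ) * (H / d) := by
    rw [e7, e8, hHx] at hv
    rw [hC₀, ← hd]
    linarith
  rw [← hm] at hrel
  have h8 : Pool.Agent.W223.VD.cnt S' P (φ (coord A)) ≤
      ∑ l, Pool.Agent.W223.CV.cc S (fun v : HeightOneSpectrum (𝓞 L) =>
        Pool.Agent.W223.AC.NearP (y l) φ v) + d * m * R := by
    rw [← htow, hR, hS', hP]
    rw [Finset.empty_union] at hk1
    exact hk1
  have h9 := mul_lt_mul_of_pos_left hv hdm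
  have e9 : d * m * (Real.log |(discr L : ℝ)| / (d * m) -
      Real.log |(discr K : ℝ)| / d + R + C₀) =
      Real.log |(discr L : ℝ)| - m * Real.log |(discr K : ℝ)| + d * m * R + d * m * C₀ := by
    field_simp
  have e10 : d * m * (W / (d * m) + (q - μ - θ - κ) * (H / d)) =
      W + (q - μ - θ - κ) * (m * H) := by
    field_simp
  rw [e9, e10] at h9
  have h10 : m * (Pool.Agent.W223.VD.cnt S' P x + d * (C₀ - q * Ck)) <
      m * ((q - θ - κ / 2) * H) := by
    have h11 : m * (Pool.Agent.W223.VD.cnt S' P x + d * (C₀ - q * Ck)) =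
        m * (Real.log |(discr K : ℝ)| + Pool.Agent.W223.VD.cnt S' P x) -
          m * Real.log |(discr K : ℝ)| + d * m * C₀ - q * (d * m * Ck) := by ring
    have h12 : m * ((q - θ - κ / 2) * H) =
      (q - μ - θ - κ) * (m * H) + (μ + κ / 2) * (m * H) := by ring
    rw [h11, h12]
    linarith
  have h13 := lt_of_mul_lt_mul_left h10 hm0.le
  have h14 : 0 ≤ Real.log |(discr K : ℝ)| := by
    apply Real.log_nonneg
    exact Pool.Agent.Y733.UD.one_le_disc K
  have h15 : d * C₀ = d * c + Real.log |(discr K : ℝ)| := by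
    rw [hC₀, ← hd]
    field_simp
  rw [← hd, hHx, mul_div_cancel₀ _ hd0.ne']
  nlinarith


open Pool.Agent.Y733.UD Pool.Agent.Y733.LS Pool.Agent.Y733.VH Pool.Agent.W223.AK
open Pool.Agent.H691R3

section Aux

variable {K : Type} [Field K] [NumberField K]

theorem n_pos : (0 : ℝ) < Module.finrank ℚ K := by
  linarith [finrank_one_le K]

theorem rootDisc_eq : rootDisc K = Real.exp (rd K) := by
  unfold rootDisc rd
  have h : (0 : ℝ) < |(NumberField.discr K : ℝ)| := by linarith [one_le_disc K]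
  rw [Real.rpow_def_of_pos h]
  congr 1
  ring

theorem ht_log (x : K) : Module.finrank ℚ K * height x = ht x := by
  rw [← height_eq, ht_eq_Sa, ← logHeight_eq, Height.logHeight₁_eq_log_mulHeight₁]

theorem ncard_le {α : Type} {S : Set α} {b : ℝ}
    (h : ∀ E : Finset α, (E : Set α) ⊆ S → (E.card : ℝ) ≤ b) : S.Finite ∧ (S.ncard : ℝ) ≤ b := by
  have hfin : S.Finite := by
    by_contra hinf
    obtain ⟨t, ht, hcard⟩ := Set.Infinite.exists_subset_card_eq hinf (⌊b⌋₊ + 1)
    have h1 := h t ht
    rw [hcard] at h1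
    have h2 := Nat.lt_floor_add_one b
    push_cast at h1
    linarith
  refine ⟨hfin, ?_⟩
  have h1 := h hfin.toFinset (by simp)
  rwa [← Set.ncard_eq_toFinset_card S hfin] at h1

theorem le_ncard {S : Set K} (hS : S.Finite) {b : ℝ} {E : Finset K} (hE : (E : Set K) ⊆ S)
    (h : b ≤ E.card) : b ≤ (S.ncard : ℝ) := by
  refine h.trans ?_
  rw [← Set.ncard_coe_finset]
  exact_mod_cast Set.ncard_le_ncard hE hS

theorem pow_form {n : ℕ} {C B Q α β : ℝ} (hC : 0 < C) (hB : 0 < B) (hQ : 0 < Q) :
    (C * B ^ α * Q ^ β) ^ n = Real.exp (n * (Real.log C + α * Real.log B + β * Real.log Q)) := by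
  rw [Real.exp_nat_mul, Real.exp_add, Real.exp_add, Real.exp_log hC, Real.rpow_def_of_pos hB,
    Real.rpow_def_of_pos hQ, mul_comm α, mul_comm β]

theorem fin_Elts (B : ℝ) : (Elts K B).Finite := by
  refine (NumberField.finite_setOfPred_logHeight₁_le (K := K)
    (Module.finrank ℚ K * Real.log B)).subset ?_
  intro x hx
  show Height.logHeight₁ x ≤ _
  rw [Height.logHeight₁_eq_log_mulHeight₁, height_eq]
  exact mul_le_mul_of_nonneg_left hx n_pos.le

theorem sqrt_rootDisc : √(rootDisc K) = Real.exp (rd K / 2) := by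
  rw [rootDisc_eq, Real.exp_half]

theorem fv_lt_iff (v : Pr K) (y z : K) :
    fv v y < fv v z ↔ v.valuation K y < v.valuation K z := by
  have hmono : StrictMono (WithZeroMulInt.toNNReal
      (HeightOneSpectrum.absNorm_ne_zero v)) :=
    WithZeroMulInt.toNNReal_strictMono (HeightOneSpectrum.one_lt_absNorm_nnreal v)
  have e : ∀ y : K, fv v y = WithZeroMulInt.toNNReal (HeightOneSpectrum.absNorm_ne_zero v)
      (v.valuation K y) := Pool.Agent.W125.CV.fv_eq v
  rw [e, e]
  rw [NNReal.coe_lt_coe]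
  exact hmono.lt_iff_lt

/-- the two counting functions -/
theorem cn_eq_cnt {q : ℕ} (S : Finset ℕ) (a : Fin q → ℚ) (x : K) :
    cn (∏ p ∈ S, p) a x = Pool.Agent.W223.VD.cnt S (fun j => Pool.Agent.W223.AC.pt (a j)) x := by
  classical
  unfold cn Pool.Agent.W223.VD.cnt
  refine finsum_congr fun v => ?_
  refine if_congr ?_ rfl rfl
  have h1 : ∀ p : ℕ, fv v (p : K) = 1 ↔ (p : 𝓞 K) ∉ v.asIdeal := by
    intro p
    have h2 := NumberField.FinitePlace.norm_eq_one_iff_notMem K v (p : 𝓞 K)
    rw [← h2]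
    have e : (algebraMap (𝓞 K) K) ((p : ℕ) : 𝓞 K) = (p : K) := map_natCast _ _
    rw [e]
    rfl
  unfold nearSet
  rw [Set.mem_ofPred_eq]
  refine and_congr ?_ ?_
  · constructor
    · intro h p hp
      exact (h1 p).1 (fv_dvd v (Finset.dvd_prod_of_mem _ hp) h)
    · intro h
      rw [Nat.cast_prod, map_prod]
      exact Finset.prod_eq_one fun p hp => (h1 p).2 (h p hp)
  · refine exists_congr fun j => ?_
    unfold nr lf
    have e2 : max (fv v x) 1 = fv v x ⊔ fv v (1 : K) := by rw [map_one]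
    rw [e2, lt_sup_iff, fv_lt_iff, fv_lt_iff, map_one, ← lt_sup_iff]
    rfl

end Aux

/-- logarithmic form of the count -/
theorem exc_log {A : Type} [CommRing A] [IsDedekindDomain A] [Algebra ℚ A] [Algebra ℚ[X] A]
    [IsScalarTower ℚ ℚ[X] A] [Module.Finite ℚ[X] A] [FaithfulSMul ℚ[X] A]
    {q : ℕ} (hq : 3 ≤ q) (a : Fin q → ℚ) (ha : Function.Injective a)
    (u : Fin q → ℕ) (y : ∀ j, Fin (u j + 1) → A)
    (hy0 : ∀ j, y j 0 = coord A - algebraMap ℚ[X] A (C (a j)))
    (hyr : ∀ j i, y j i ∈ (Ideal.span {coord A - algebraMap ℚ[X] A (C (a j))}).radical)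
    {θ ε : ℝ} (hθ0 : 0 ≤ θ) (hθ : θ ≤ 2) (hε : 0 < ε) (hε1 : ε ≤ 1) (c : ℝ) :
    ∃ A' : ℝ, 0 ≤ A' ∧ ∀ (K : Type) [Field K] [NumberField K] (B : ℝ), 1 ≤ B →
      ((Exceptions K a u y θ ε c B).ncard : ℝ) ≤ Real.exp (Module.finrank ℚ K *
        (A' + (2 - 2 * θ / q - ε / (2 * q)) * Real.log B)) := by
  classical
  have hq0 : (3 : ℝ) ≤ q := by exact_mod_cast hq
  have hqp : (0 : ℝ) < q := by linarith
  obtain ⟨M, G, C₁, hG, hsub⟩ := exceptions_sub hq a u y hy0 hyr (θ := θ) hε c
  obtain ⟨A', hA', h⟩ := count_cn (q := q) (by omega) a ha (∏ p ∈ M.primeFactors, p)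
    (Finset.prod_ne_zero_iff.2 fun p hp => (Nat.prime_of_mem_primeFactors hp).ne_zero)
    (ε := ε / (2 * q)) (by positivity)
  have hlg : 0 ≤ Real.log (G.natDegree + 1) := by
    apply Real.log_nonneg
    have : (0 : ℝ) ≤ G.natDegree := Nat.cast_nonneg _
    linarith
  refine ⟨A' + |C₁| + Real.log (G.natDegree + 1), by positivity, ?_⟩
  intro K _ _ B hB
  obtain ⟨n, hn⟩ : ∃ n, n = Module.finrank ℚ K := ⟨_, rfl⟩
  rw [← hn]
  have hn1 : (1 : ℝ) ≤ n := by rw [hn]; exact finrank_one_le K
  have hlB := Real.log_nonneg hB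
  set Z := (Polynomial.rootSet_finite G K).toFinset with hZ
  have hZc : (Z.card : ℝ) ≤ G.natDegree := by
    have h1 := Polynomial.ncard_rootSet_le G K
    rw [hZ, ← Set.ncard_eq_toFinset_card _ (Polynomial.rootSet_finite G K)]
    exact_mod_cast h1
  refine (ncard_le fun E hE => ?_).2
  set E' := E \ Z with hE'
  have h1 : (E'.card : ℝ) ≤ Real.exp (n * A' + 2 / q * ((q - θ - ε / 2) * (n * Real.log B) +
      n * |C₁|) + ε / (2 * q) * (n * Real.log B)) := by
    rw [hn]
    refine h K _ _ E' ?_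
    intro x hx
    obtain ⟨hxE, hxZ⟩ := Finset.mem_sdiff.1 hx
    have hxm := hE (Finset.mem_coe.2 hxE)
    have hxh : height x ≤ Real.log B := hxm.1
    refine ⟨hxm.2.1, ?_, ?_⟩
    · rw [← ht_log]
      exact mul_le_mul_of_nonneg_left hxh n_pos.le
    · rcases hsub K B x hxm with h2 | h2
      · exfalso
        apply hxZ
        rw [hZ, Set.Finite.mem_toFinset]
        exact (Polynomial.mem_rootSet_of_ne hG).2 h2
      · rw [cn_eq_cnt]
        refine h2.trans ?_
        rw [← hn]
        have h3 : 0 ≤ (q : ℝ) - θ - ε / 2 := by linarith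
        have h4 : (n : ℝ) * height x ≤ n * Real.log B :=
          mul_le_mul_of_nonneg_left hxh (by linarith)
        have h5 := mul_le_mul_of_nonneg_left h4 h3
        have h6 : (n : ℝ) * C₁ ≤ n * |C₁| := mul_le_mul_of_nonneg_left (le_abs_self _) (by linarith)
        linarith
  have h2 : (E.card : ℝ) ≤ E'.card + G.natDegree := by
    have h3 : E.card ≤ E'.card + Z.card := by
      rw [hE']
      have := Finset.card_le_card_sdiff_add_card (s := E) (t := Z)
      omega
    have h4 : (E.card : ℝ) ≤ E'.card + Z.card := by exact_mod_cast h3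
    linarith
  have e1 : n * A' + 2 / q * ((q - θ - ε / 2) * (n * Real.log B) + n * |C₁|) +
      ε / (2 * q) * (n * Real.log B) = n * (A' + 2 / q * |C₁| +
        (2 - 2 * θ / q - ε / (2 * q)) * Real.log B) := by
    field_simp
    ring
  rw [e1] at h1
  have hexp : 0 ≤ 2 - 2 * θ / q - ε / (2 * q) := by
    have h3 : 2 * θ / q ≤ 4 / 3 := by
      rw [div_le_div_iff₀ hqp (by norm_num)]
      linarith
    have h4 : ε / (2 * q) ≤ 1 / 6 := by
      rw [div_le_div_iff₀ (by positivity) (by norm_num)]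
      linarith
    linarith
  have h3 : n * (A' + 2 / q * |C₁| + (2 - 2 * θ / q - ε / (2 * q)) * Real.log B) ≤
      n * (A' + |C₁| + (2 - 2 * θ / q - ε / (2 * q)) * Real.log B) := by
    apply mul_le_mul_of_nonneg_left _ (by linarith)
    have h4 : 2 / (q : ℝ) ≤ 1 := by
      rw [div_le_one hqp]
      linarith
    have := mul_le_mul_of_nonneg_right h4 (abs_nonneg C₁)
    linarith
  have h4 := h1.trans (Real.exp_le_exp.2 h3)
  have h5 : 0 ≤ n * (A' + |C₁| + (2 - 2 * θ / q - ε / (2 * q)) * Real.log B) := by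
    have := abs_nonneg C₁
    have := mul_nonneg hexp hlB
    positivity
  have h6 := Real.one_le_exp h5
  have h7 : (G.natDegree : ℝ) + 1 ≤ Real.exp (n * Real.log (G.natDegree + 1)) := by
    have h8 : Real.exp (Real.log ((G.natDegree : ℝ) + 1)) = G.natDegree + 1 :=
      Real.exp_log (by positivity)
    calc (G.natDegree : ℝ) + 1 = Real.exp (Real.log ((G.natDegree : ℝ) + 1)) := h8.symm
      _ ≤ _ := Real.exp_le_exp.2 (by nlinarith)
  have h8 : (0 : ℝ) ≤ G.natDegree := Nat.cast_nonneg _
  calc (E.card : ℝ) ≤ ((G.natDegree : ℝ) + 1) *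
        Real.exp (n * (A' + |C₁| + (2 - 2 * θ / q - ε / (2 * q)) * Real.log B)) := by
        nlinarith
    _ ≤ Real.exp (n * Real.log (G.natDegree + 1)) *
        Real.exp (n * (A' + |C₁| + (2 - 2 * θ / q - ε / (2 * q)) * Real.log B)) :=
        mul_le_mul_of_nonneg_right h7 (Real.exp_pos _).le
    _ = _ := by
        rw [← Real.exp_add]
        congr 1
        ring

/-- logarithmic form of the lower bound for the number of all elements -/
theorem elts_log {ε : ℝ} (hε : 0 < ε) : ∃ A : ℝ, 0 ≤ A ∧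
    ∀ (K : Type) [Field K] [NumberField K] (B : ℝ), 16 * √(rootDisc K) ≤ B →
      Real.exp (Module.finrank ℚ K * ((2 - ε) * Real.log B - (2 + ε) * rd K - A)) ≤
        ((Elts K B).ncard : ℝ) := by
  classical
  set ε1 : ℝ := min (ε / 4) 1 with hε1
  have h1 : 0 < ε1 := lt_min (by positivity) one_pos
  have h2 : ε1 ≤ 1 := min_le_right _ _
  have h3 : 4 * ε1 ≤ ε := by
    have := min_le_left (ε / 4) 1
    rw [← hε1] at this
    linarith
  obtain ⟨A, hA, h⟩ := low_count h1 h2
  refine ⟨A, hA, ?_⟩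
  intro K _ _ B hBK
  have hn := n_pos (K := K)
  have hrd := rd_nonneg K
  have hl16 : 0 ≤ Real.log 16 := Real.log_nonneg (by norm_num)
  have hl : Real.log 16 + rd K / 2 ≤ Real.log B := by
    rw [sqrt_rootDisc] at hBK
    have h1 := Real.log_le_log (by positivity) hBK
    rwa [Real.log_mul (by norm_num) (Real.exp_pos _).ne', Real.log_exp] at h1
  have hl8 : Real.log 8 ≤ Real.log 16 := Real.log_le_log (by norm_num) (by norm_num)
  obtain ⟨E, hE, hcard⟩ := h K (Real.log B) (by linarith)
  have hsub : (E : Set K) ⊆ Elts K B := by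
    intro j hj
    obtain ⟨h4, h5⟩ := hE j (Finset.mem_coe.1 hj)
    show height j ≤ Real.log B
    rw [← ht_log] at h5
    exact le_of_mul_le_mul_left h5 hn
  have hc := le_ncard (fin_Elts B) hsub hcard
  refine le_trans ?_ hc
  apply Real.exp_le_exp.2
  have h7 : (2 - ε) * Real.log B ≤ (2 - 4 * ε1) * Real.log B :=
    mul_le_mul_of_nonneg_right (by linarith) (by linarith)
  have h8 : (2 + ε1) * rd K ≤ (2 + ε) * rd K := mul_le_mul_of_nonneg_right (by linarith) hrd
  apply mul_le_mul_of_nonneg_left _ hn.le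
  linarith

theorem exc_le {A : Type} [CommRing A] [Algebra ℚ A] [Algebra ℚ[X] A] (K : Type) [Field K]
    [NumberField K] {q : ℕ} (a : Fin q → ℚ) (u : Fin q → ℕ) (y : ∀ j, Fin (u j + 1) → A)
    (θ ε c B : ℝ) :
    ((Exceptions K a u y θ ε c B).ncard : ℝ) ≤ ((Elts K B).ncard : ℝ) := by
  have h : Exceptions K a u y θ ε c B ⊆ Elts K B := fun x hx => hx.1
  exact_mod_cast Set.ncard_le_ncard h (fin_Elts B)

/-- **Vojta's height inequality on all curves, over all number fields of all degrees.** Let `A` be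
a Dedekind domain, finite over `ℚ[t]` and containing it (the ring of functions of a smooth affine
curve which is finite over the `t`-line), of rank `N`, let `a_1, …, a_q` be `q ≥ 3` distinct rational
numbers and `y_{j 0} = t - a_j, y_{j 1}, …, y_{j u_j}` elements of the radical of the ideal
`(t - a_j)`, for example generators. Let `0 ≤ θ ≤ 2`, `0 < ε ≤ 1` and `c` real.

(1) There is `C > 0` such that over every number field `K`, of whatever degree `n`, and for every
`B ≥ 1` the following holds for all `x ∈ K` of absolute height at most `B`, with the exception of the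
`a_j` and of at most `(C B ^ (2 - 2 θ / q - ε / (2 q))) ^ n` others: all points `P` of the curve with
`t(P) = x`, all number fields `L ⊇ K` over which `P` is defined and all finite sets `S` of primes
satisfy `m_S(F, P) + (q - θ - (∑_j dim (A / (y_{j 0}, y_{j 1}, …))) / N) h(x) ≤
d(L) + ε h(x) + ∑_{p ∈ S} log p + c`.

(2) The exceptions are at most the proportion
`(C B ^ (- 2 θ / q - ε / (4 q)) δ_K ^ (2 + ε)) ^ n` of the elements `x` of height at most `B`.

(3) There are at least `(B ^ (2 - η) / (C δ_K ^ (2 + η))) ^ n` such elements if `B ≥ 16 √δ_K`. -/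
theorem result :
    (∀ (A : Type) [CommRing A] [IsDedekindDomain A] [Algebra ℚ A] [Algebra ℚ[X] A]
      [IsScalarTower ℚ ℚ[X] A] [Module.Finite ℚ[X] A] [FaithfulSMul ℚ[X] A]
      (q : ℕ), 3 ≤ q → ∀ (a : Fin q → ℚ), Function.Injective a →
      ∀ (u : Fin q → ℕ) (y : ∀ j, Fin (u j + 1) → A),
      (∀ j, y j 0 = coord A - algebraMap ℚ[X] A (C (a j))) →
      (∀ j i, y j i ∈ (Ideal.span {coord A - algebraMap ℚ[X] A (C (a j))}).radical) →
      ∀ θ ε c : ℝ, 0 ≤ θ → θ ≤ 2 → 0 < ε → ε ≤ 1 →
      (∃ C : ℝ, 0 < C ∧ ∀ (K : Type) [Field K] [NumberField K] (B : ℝ), 1 ≤ B →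
        (Elts K B).Finite ∧ ((Exceptions K a u y θ ε c B).ncard : ℝ) ≤
          (C * B ^ (2 - 2 * θ / q - ε / (2 * q))) ^ Module.finrank ℚ K) ∧
      (∃ C : ℝ, 0 < C ∧ ∀ (K : Type) [Field K] [NumberField K] (B : ℝ), 1 ≤ B →
        ((Exceptions K a u y θ ε c B).ncard : ℝ) ≤
          (C * B ^ (-(2 * θ / q) - ε / (4 * q)) * rootDisc K ^ (2 + ε)) ^ Module.finrank ℚ K *
            ((Elts K B).ncard : ℝ))) ∧
    (∀ η : ℝ, 0 < η → ∃ C : ℝ, 0 < C ∧
      ∀ (K : Type) [Field K] [NumberField K] (B : ℝ), 16 * √(rootDisc K) ≤ B →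
        (C⁻¹ * B ^ (2 - η) * rootDisc K ^ (-(2 + η))) ^ Module.finrank ℚ K ≤
          ((Elts K B).ncard : ℝ)) := by
  refine ⟨?_, ?_⟩
  · intro A _ _ _ _ _ _ _ q hq a ha u y hy0 hyr θ ε c hθ0 hθ hε hε1
    have hq0 : (3 : ℝ) ≤ q := by exact_mod_cast hq
    have hqp : (0 : ℝ) < q := by linarith
    obtain ⟨A1, hA1, h1⟩ := exc_log hq a ha u y hy0 hyr hθ0 hθ hε hε1 c
    refine ⟨⟨Real.exp A1, Real.exp_pos _, ?_⟩, ?_⟩
    · intro K _ _ B hB
      have hB0 : 0 < B := by linarith
      refine ⟨fin_Elts B, (h1 K B hB).trans (le_of_eq ?_)⟩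
      rw [Real.rpow_def_of_pos hB0, ← Real.exp_add, ← Real.exp_nat_mul]
      congr 2
      ring
    · obtain ⟨A2, hA2, h2⟩ := elts_log (ε := ε / (4 * q)) (by positivity)
      have hl16 : 0 ≤ Real.log 16 := Real.log_nonneg (by norm_num)
      refine ⟨Real.exp (A1 + A2 + 2 * Real.log 16), Real.exp_pos _, ?_⟩
      intro K _ _ B hB
      have hB0 : 0 < B := by linarith
      have hlB : 0 ≤ Real.log B := Real.log_nonneg hB
      have hn := n_pos (K := K)
      have hrd := rd_nonneg K
      have hδ : 0 < rootDisc K := by rw [rootDisc_eq]; exact Real.exp_pos _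
      have hε4 : ε / (4 * q) ≤ ε := by
        rw [div_le_iff₀ (by positivity)]
        nlinarith
      rw [pow_form (Real.exp_pos _) hB0 hδ, Real.log_exp, rootDisc_eq, Real.log_exp]
      rcases le_or_gt (16 * √(rootDisc K)) B with hBK | hBK
      · refine (h1 K B hB).trans ?_
        refine le_trans ?_ (mul_le_mul_of_nonneg_left (h2 K B hBK) (Real.exp_pos _).le)
        rw [← Real.exp_add]
        apply Real.exp_le_exp.2
        rw [← mul_add]
        apply mul_le_mul_of_nonneg_left _ hn.le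
        have e : 2 - 2 * θ / q - ε / (2 * q) =
            (-(2 * θ / q) - ε / (4 * q)) + (2 - ε / (4 * q)) := by
          field_simp
          ring
        rw [e, add_mul]
        have h8 : (2 + ε / (4 * q)) * rd K ≤ (2 + ε) * rd K :=
          mul_le_mul_of_nonneg_right (by linarith) hrd
        linarith
      · have h7 : Real.log B < Real.log 16 + rd K / 2 := by
          rw [sqrt_rootDisc] at hBK
          have h1 := Real.log_lt_log hB0 hBK
          rwa [Real.log_mul (by norm_num) (Real.exp_pos _).ne', Real.log_exp] at h1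
        refine le_trans (exc_le K a u y θ ε c B) ?_
        refine le_mul_of_one_le_left (Nat.cast_nonneg _) (Real.one_le_exp ?_)
        apply mul_nonneg hn.le
        have h3 : 2 * θ / q ≤ 4 / 3 := by
          rw [div_le_div_iff₀ hqp (by norm_num)]
          linarith
        have h4 : ε / (4 * q) ≤ 1 / 12 := by
          rw [div_le_div_iff₀ (by positivity) (by norm_num)]
          linarith
        have h8 : -(2 * Real.log B) ≤ (-(2 * θ / q) - ε / (4 * q)) * Real.log B := by
          nlinarith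
        have h10 := mul_nonneg hε.le hrd
        linarith
  · intro η hη
    obtain ⟨A, hA, h⟩ := elts_log hη
    refine ⟨Real.exp A, Real.exp_pos _, ?_⟩
    intro K _ _ B hBK
    have hB : 0 < B := by
      have h1 := hBK
      rw [sqrt_rootDisc] at h1
      have : 0 < 16 * Real.exp (rd K / 2) := by positivity
      linarith
    have hδ : 0 < rootDisc K := by rw [rootDisc_eq]; exact Real.exp_pos _
    rw [pow_form (by positivity) hB hδ, Real.log_inv, Real.log_exp, rootDisc_eq, Real.log_exp]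
    refine le_trans (le_of_eq ?_) (h K B hBK)
    congr 1
    ring

end Pool.Agent.Results.MP_6f1c57_nt.AllFieldsHeightInequality
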