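import Mathlib
import Pool.Agent.Y557.OE.SetW

/-!
# The height inequality with proximity function: one exceptional set for all curves over all number
fields and all divisors

Let `K` be a number field and `a_1, …, a_q` distinct rational numbers, `q ≥ 3`, for example `q = 3`.
We consider ALL number fields `k`, all smooth projective curves `C` over `k` and all finite maps
`t : C → ℙ¹` of degree `N` over `k` which are unramified outside the fibres over the `a_j`. By
Belyi's theorem every curve over every number field has such maps, and every reduced divisor `D` on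
`C` is contained in the fibres over the `a_j` for some such map. Let `A` be the ring of the functions
on `C` with poles only over `∞`: a Dedekind domain, finite over `k[t]`. Let
`y_{j 0} = t - a_j, y_{j 1}, …` be generators of the radical of the ideal `(t - a_j)`, the ideal of
the reduced fibre `F_j` over `a_j`. Then `F = ∑ F_j ≥ D` and
`(deg K_C) / N = q - 2 - (∑_j dim (A / (y_{j 0}, y_{j 1}, …))) / N`.

The points `P` of `C` (not over `∞`) over a number field `L` containing `k` are the homomorphisms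
`φ : A → L` over `k`, and `λ_v(P) = ∑_j max(0, - log max_i |y_{j i}(P)|_v)` is a Weil function of
`F` at `v`.

The elements `x` of `K`, of all heights, are ordered by the truncated counting function of
`[a_1] + … + [a_q]` on the line; there are `X ^ (2 / q + o(1))` of them for which it is at most
`log X`. We prove that for every `ε > 0` there is a set `E ⊆ K`, which contains only
`O(X ^ (2 / q - ν))` of them, such that for all `k`, `C` and `t`, with a constant `c` depending on
these data, all points `P` of `C` over all `x` not in `E`, all number fields `L` containing `k` and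
`K` over which `P` is defined and all finite sets `S` of rational primes satisfy
`m_S(F, P) + (2 + (deg K_C) / N) h(x) ≤ d(L) + ε h(x) + ∑_{p ∈ S} log p + c`.
Here `k` and `K` are independent of each other. The height `h`, the proximity function `m_S` and the
logarithmic discriminant `d(L)` are the absolute ones. (For `L = K k(P)` one has
`d(L) ≤ d(k(P)) + d(K)`.)
-/

set_option autoImplicit false

namespace Pool.Agent.Results.MP_6f1c57_nt.OneExceptionalSet

open Polynomial IsDedekindDomain NumberField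

/-- The function `t` on the curve with the ring of functions `A`. -/
noncomputable def coord (k A : Type) [Field k] [CommRing A] [Algebra k[X] A] : A :=
  algebraMap k[X] A X

/-- The absolute logarithmic height of the point `x` of the line. -/
noncomputable def height {K : Type} [Field K] [NumberField K] (x : K) : ℝ :=
  Height.logHeight₁ x / Module.finrank ℚ K

/-- `max (0, - log max_i c_i)` -/
noncomputable def minusLog {s : ℕ} (c : Fin (s + 1) → ℝ) : ℝ := max 0 (-Real.log (⨆ i, c i))

open Classical in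
/-- The proximity function `m_S(F, P)`: the sum over the infinite places `w` (with
`mult w = [L_w : ℝ]`) and the primes `v` above the primes of `S` of the local heights
`∑_j max (0, - log max_i |y_{j i}(P)|)`, divided by `[L : ℚ]`. The absolute values are normalised
so that the product formula holds: `|b|_v = N(v) ^ (- v(b))`. -/
noncomputable def proximity {k A : Type} [Field k] [CommRing A] [Algebra k A] (S : Finset ℕ)
    {q : ℕ} {u : Fin q → ℕ} (y : ∀ j, Fin (u j + 1) → A) {L : Type} [Field L] [NumberField L]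
    [Algebra k L] (φ : A →ₐ[k] L) : ℝ :=
  ((∑ w : InfinitePlace L, (w.mult : ℝ) * ∑ j, minusLog (fun i => w (φ (y j i)))) +
    ∑ᶠ v : HeightOneSpectrum (𝓞 L), if ∃ p ∈ S, (p : 𝓞 L) ∈ v.asIdeal then
      ∑ j, minusLog (fun i => FinitePlace.mk v (φ (y j i))) else 0) / Module.finrank ℚ L

open Classical in
/-- The truncated counting function of `[a_1] + … + [a_q]` at the point `x` of the line over `K`:
the sum of `log N(v)` over the primes `v` of `K` at which `x` and some `a_j` have the same
reduction. -/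
noncomputable def counting {K : Type} [Field K] [NumberField K] {q : ℕ}
    (a : Fin q → K) (x : K) : ℝ :=
  ∑ᶠ v : HeightOneSpectrum (𝓞 K),
    if ∃ j, v.valuation K (x - a j) < max (v.valuation K (a j)) 1 * max (v.valuation K x) 1
    then Real.log (Ideal.absNorm v.asIdeal) else 0

/-- The (absolute) logarithmic discriminant `d(L) = log |disc L| / [L : ℚ]`. -/
noncomputable def logDisc (L : Type) [Field L] [NumberField L] : ℝ :=
  Real.log |(NumberField.discr L : ℝ)| / Module.finrank ℚ L

/-- `q - (∑_j dim (A / (y_{j 0}, y_{j 1}, …))) / N`, where `N` is the rank of `A` over `k[t]`. -/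
noncomputable def degree (k : Type) {A : Type} [Field k] [CommRing A] [Algebra k A]
    [Algebra k[X] A] {q : ℕ} {u : Fin q → ℕ} (y : ∀ j, Fin (u j + 1) → A) : ℝ :=
  q - (∑ j, (Module.finrank k (A ⧸ Ideal.span (Set.range (y j))) : ℝ)) / Module.finrank k[X] A

/-- The elements `x` of `K`, of whatever height, different from the `a_j`, whose truncated counting
function with respect to `[a_1] + … + [a_q]` is at most `log X`. -/
def Values (K : Type) [Field K] [NumberField K] {q : ℕ} (a : Fin q → ℚ) (X : ℝ) : Set K :=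
  {x | (∀ j, x ≠ algebraMap ℚ K (a j)) ∧
    counting (fun j => algebraMap ℚ K (a j)) x ≤ Real.log X}

open Classical in
theorem counting_eq {K : Type} [Field K] [NumberField K] {q : ℕ}
    (a : Fin q → K) {x : K} (hx : ∀ j, x ≠ a j) :
    counting a x = Pool.Agent.TH876.KR.counting (Pool.Agent.Y557.OE.noS K)
      (fun j => Pool.Agent.Y728.AK.pK (a j)) ![x, 1] := by
  rw [← Pool.Agent.Y728.AK.cntK_eq ∅ a hx]
  unfold counting Pool.Agent.Y728.AK.cntK Pool.Agent.Y728.AK.NearK
  refine finsum_congr fun v => ?_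
  by_cases h : ∃ j,
      v.valuation K (x - a j) < max (v.valuation K (a j)) 1 * max (v.valuation K x) 1
  · exact (if_pos h).trans (if_pos ⟨Finset.notMem_empty v, h⟩).symm
  · exact (if_neg h).trans (if_neg fun h' => h h'.2).symm

theorem form_iff {K : Type} [Field K] {a x : K} :
    Pool.Agent.TH876.KR.form (Pool.Agent.Y728.AK.pK a) ![x, 1] ≠ 0 ↔ x ≠ a := by
  have e : Pool.Agent.TH876.KR.form (Pool.Agent.Y728.AK.pK a) ![x, 1] = a - x := by
    show a * 1 - 1 * x = a - x
    ring
  rw [e, sub_ne_zero]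
  exact ne_comm

/-- an element as a tuple of length one -/
def one {K : Type} (x : K) : Fin 1 → K := fun _ => x

theorem one_bij (K : Type) : Function.Bijective (one : K → Fin 1 → K) := by
  refine ⟨fun x y h => congrFun h 0, fun y => ⟨y 0, ?_⟩⟩
  funext i
  rw [Subsingleton.elim i 0]
  rfl

theorem values_eq {K : Type} [Field K] [NumberField K] {q : ℕ} (a : Fin q → ℚ) (X : ℝ) :
    Values K a X = one ⁻¹' Pool.Agent.Y728.MN.TupG (Pool.Agent.Y557.OE.noS K)
      (fun j => Pool.Agent.Y728.AK.pK (algebraMap ℚ K (a j))) ∅ X := by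
  ext x
  constructor
  · rintro ⟨h1, h2⟩
    refine ⟨fun i => ⟨fun j => form_iff.2 (h1 j), ?_⟩, fun p hp =>
      absurd hp (Finset.notMem_empty p)⟩
    show Pool.Agent.TH876.KR.counting (Pool.Agent.Y557.OE.noS K)
      (fun j => Pool.Agent.Y728.AK.pK (algebraMap ℚ K (a j))) ![x, 1] ≤ Real.log X
    rw [← counting_eq (fun j => algebraMap ℚ K (a j)) h1]
    exact h2
  · rintro ⟨h, -⟩
    obtain ⟨h1, h2⟩ := h 0
    have h3 : ∀ j, x ≠ algebraMap ℚ K (a j) := fun j => form_iff.1 (h1 j)
    refine ⟨h3, ?_⟩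
    rw [counting_eq (fun j => algebraMap ℚ K (a j)) h3]
    exact h2

theorem ncard_pre {K : Type} (s : Set (Fin 1 → K)) :
    ((one : K → Fin 1 → K) ⁻¹' s).ncard = s.ncard :=
  Set.ncard_preimage_of_injective_subset_range (one_bij K).1
    ((one_bij K).2.range_eq ▸ Set.subset_univ s)

open Classical in
lemma proximity_eq {k A : Type} [Field k] [CommRing A] [Algebra k A] (S : Finset ℕ) {q : ℕ}
    {u : Fin q → ℕ} (y : ∀ j, Fin (u j + 1) → A) {L : Type} [Field L] [NumberField L]
    [Algebra k L] (φ : A →ₐ[k] L)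
    (hf : ∀ j, {v : HeightOneSpectrum (𝓞 L) |
      Pool.Agent.W223.AC.lamF (y j) (φ : A →+* L) v ≠ 0}.Finite) :
    proximity S y φ = (∑ j, (∑ w : InfinitePlace L, (w.mult : ℝ) *
      Pool.Agent.W223.AC.lamI (y j) (φ : A →+* L) w +
        Pool.Agent.W223.AC.mS S (y j) (φ : A →+* L))) / Module.finrank ℚ L := by
  unfold proximity
  refine congrArg (fun t : ℝ => t / Module.finrank ℚ L) ?_
  rw [Finset.sum_add_distrib]
  congr 1
  · rw [Finset.sum_comm]
    refine Finset.sum_congr rfl fun w _ => ?_
    rw [Finset.mul_sum]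
    rfl
  · unfold Pool.Agent.W223.AC.mS
    rw [← finsum_sum_comm]
    · refine finsum_congr fun v => ?_
      split_ifs
      · rfl
      · rw [Finset.sum_const_zero]
    · intro j _
      refine (hf j).subset fun v hv => ?_
      rw [Function.mem_support] at hv
      intro h
      apply hv
      rw [h, ite_self]

/-- **The height inequality, one exceptional set for all curves over all number fields, points of all
heights.** Let `K` be a number field and `a_1, …, a_q` distinct rational numbers, `q ≥ 3`.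

(1) The number of the elements `x` of `K`, of whatever height, with truncated counting function
`≤ log X` with respect to `[a_1] + … + [a_q]` is `X ^ (2 / q + o(1))`.

(2) For every `ε > 0` there is a set `E ⊆ K` such that at most `C X ^ (2 / q - ν)` of them, for
large `X` at most `X ^ (-ν)` times their number, are in `E`, and such that the following holds for
all number fields `k`. Let `A` be a Dedekind domain, finite over `k[t]` and containing it (the ring
of functions of a smooth affine curve over `k` which is finite over the `t`-line), of rank `N`, and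
let `y_{j 0} = t - a_j, y_{j 1}, …` be elements of the radical of the ideal `(t - a_j)` of `A`, for
example generators. Then there is a constant `c` such that for all `x` in `K`, different from the
`a_j`, which are not in `E`, all points `P` of the curve with `t(P) = x`, all number fields `L`
containing `k` and `K` over which `P` is defined and all finite sets `S` of primes satisfy
`m_S(F, P) + (q - (∑_j dim (A / (y_{j 0}, y_{j 1}, …))) / N) h(x) ≤
d(L) + ε h(x) + ∑_{p ∈ S} log p + c`. -/
theorem result (K : Type) [Field K] [NumberField K] (q : ℕ) (hq : 3 ≤ q) (a : Fin q → ℚ)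
    (ha : Function.Injective a) :
    (∀ δ : ℝ, 0 < δ →
      (∃ C : ℝ, ∀ X : ℝ, 1 ≤ X → (Values K a X).Finite ∧
        ((Values K a X).ncard : ℝ) ≤ C * X ^ (2 / (q : ℝ) + δ)) ∧
      ∃ X₀ : ℝ, ∀ X : ℝ, X₀ ≤ X → X ^ (2 / (q : ℝ) - δ) ≤ ((Values K a X).ncard : ℝ)) ∧
    ∀ ε : ℝ, 0 < ε → ∃ E : Set K,
      (∃ ν C : ℝ, 0 < ν ∧ 0 < C ∧ ∀ X : ℝ, 1 ≤ X →
        ((E ∩ Values K a X).ncard : ℝ) ≤ C * X ^ (2 / (q : ℝ) - ν)) ∧
      (∃ ν X₀ : ℝ, 0 < ν ∧ ∀ X : ℝ, X₀ ≤ X →
        ((E ∩ Values K a X).ncard : ℝ) ≤ X ^ (-ν) * ((Values K a X).ncard : ℝ)) ∧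
      ∀ (k : Type) [Field k] [NumberField k] (A : Type) [CommRing A] [IsDedekindDomain A]
        [Algebra k A] [Algebra k[X] A] [IsScalarTower k k[X] A] [Module.Finite k[X] A]
        [FaithfulSMul k[X] A] (u : Fin q → ℕ) (y : ∀ j, Fin (u j + 1) → A),
        (∀ j, y j 0 = coord k A - algebraMap k A (algebraMap ℚ k (a j))) →
        (∀ j i, y j i ∈
          (Ideal.span {coord k A - algebraMap k A (algebraMap ℚ k (a j))}).radical) →
        ∃ c : ℝ, ∀ x : K, x ∉ E → (∀ j, x ≠ algebraMap ℚ K (a j)) →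
          ∀ (L : Type) [Field L] [NumberField L] [Algebra K L] [Algebra k L] (φ : A →ₐ[k] L),
            φ (coord k A) = algebraMap K L x → ∀ S : Finset ℕ, (∀ p ∈ S, p.Prime) →
              proximity S y φ + degree k y * height x ≤
                logDisc L + ε * height x + ∑ p ∈ S, Real.log p + c := by
  classical
  have hS : (Pool.Agent.Y557.OE.noS K).Finite := Finset.finite_toSet _
  have ha' : ∀ i j, i ≠ j → Pool.Agent.TH876.KR.form
      ((fun j => Pool.Agent.Y728.AK.pK (algebraMap ℚ K (a j))) i)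
      ((fun j => Pool.Agent.Y728.AK.pK (algebraMap ℚ K (a j))) j) ≠ 0 :=
    fun i j hij => Pool.Agent.Y728.AK.formK_ne' fun h => hij (ha ((algebraMap ℚ K).injective h))
  have hval : ∀ X : ℝ, (Values K a X).ncard =
      (Pool.Agent.Y728.MN.TupG (m := 1) (Pool.Agent.Y557.OE.noS K)
        (fun j => Pool.Agent.Y728.AK.pK (algebraMap ℚ K (a j))) ∅ X).ncard := by
    intro X
    rw [values_eq, ncard_pre]
  have e21 : 2 * ((1 : ℕ) : ℝ) / (q : ℝ) = 2 / q := by push_cast; ring
  have hlow : ∀ δ : ℝ, 0 < δ → ∃ X₀ : ℝ, 1 ≤ X₀ ∧ ∀ X : ℝ, X₀ ≤ X →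
      X ^ (2 / (q : ℝ) - δ) ≤ ((Values K a X).ncard : ℝ) := by
    intro δ hδ
    have h := Pool.Agent.Y728.MN.tup_low (m := 1) hq one_pos hS ha' (G := ∅)
      (fun p hp => absurd hp (Finset.notMem_empty p)) δ hδ
    rw [e21] at h
    simp only [hval]
    exact h
  refine ⟨fun δ hδ => ⟨?_, ?_⟩, fun ε hε => ?_⟩
  · obtain ⟨C, h⟩ := Pool.Agent.Y728.MN.tup_all (m := 1) hq one_pos hS ha' ∅ δ hδ
    rw [e21] at h
    refine ⟨C, fun X hX => ⟨?_, ?_⟩⟩
    · rw [values_eq]
      exact (h X hX).1.preimage (one_bij K).1.injOn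
    · rw [hval]
      exact (h X hX).2
  · obtain ⟨X0, -, h⟩ := hlow δ hδ
    exact ⟨X0, h⟩
  obtain ⟨E, hupp, hE⟩ := Pool.Agent.Y557.OE.one_exc K one_pos hq
    (fun j => algebraMap ℚ K (a j)) ((algebraMap ℚ K).injective.comp ha) (κ := ε / 2)
    (by positivity)
  rw [e21] at hupp
  have hupp' : ∃ ν C : ℝ, 0 < ν ∧ 0 < C ∧ ∀ X : ℝ, 1 ≤ X →
      ((one ⁻¹' E ∩ Values K a X).ncard : ℝ) ≤ C * X ^ (2 / (q : ℝ) - ν) := by
    simp only [values_eq, ← Set.preimage_inter, ncard_pre]
    exact hupp
  refine ⟨one ⁻¹' E, hupp', ?_, ?_⟩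
  · obtain ⟨ν, C, hν, hC, h1⟩ := hupp'
    obtain ⟨X0, hX0, h2⟩ := hlow (ν / 2) (by positivity)
    exact ⟨ν / 4, _, by positivity, Pool.Agent.Y728.AK.ratio_of hν hC hX0 h1 h2⟩
  intro k _ _ A _ _ _ _ _ _ _ u y hy0 hyr
  obtain ⟨c, hc⟩ := Pool.Agent.Y557.OE.coreW (K := K) (m := 1) (A := fun _ => A) hq a
    (fun _ => u) (fun _ => y) (fun _ => hy0) (fun _ => hyr) (G := ∅)
    (fun p hp => absurd hp (Finset.notMem_empty p)) hε
  obtain ⟨d, hd⟩ : ∃ d : ℝ, d = (Module.finrank ℚ K : ℝ) := ⟨_, rfl⟩
  have hd0 : 0 < d := by rw [hd]; exact_mod_cast Module.finrank_pos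
  refine ⟨c / d, ?_⟩
  intro x hxE hxa L _ _ _ _ φ hφ S hS'
  obtain ⟨hinj, hnn⟩ := hE (one x) hxE (fun _ => hxa)
  obtain ⟨hfin, h0⟩ := hc (one x) (fun _ => hxa) hinj hnn L (fun _ => φ) (fun _ => hφ)
  have h1 := h0 S hS'
  rw [Fin.sum_univ_one, Fin.sum_univ_one, Finset.sum_empty, add_zero] at h1
  have hpr := proximity_eq S y φ (fun j => hfin 0 j)
  have hfd : FiniteDimensional K L := Module.Finite.of_restrictScalars_finite ℚ K L
  obtain ⟨mL, hmL⟩ : ∃ mL : ℝ, mL = (Module.finrank K L : ℝ) := ⟨_, rfl⟩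
  have hm0 : 0 < mL := by rw [hmL]; exact_mod_cast Module.finrank_pos
  have htow : (Module.finrank ℚ L : ℝ) = d * mL := by
    rw [hd, hmL]
    exact_mod_cast (Module.finrank_mul_finrank ℚ K L).symm
  obtain ⟨lL, hlL⟩ : ∃ lL : ℝ, lL = Real.log |(NumberField.discr L : ℝ)| := ⟨_, rfl⟩
  obtain ⟨Rs, hRs⟩ : ∃ Rs : ℝ, Rs = ∑ p ∈ S, Real.log p := ⟨_, rfl⟩
  obtain ⟨W0, hW0⟩ : ∃ W0 : ℝ, W0 = ∑ j, (∑ w : InfinitePlace L, (w.mult : ℝ) *
      Pool.Agent.W223.AC.lamI (y j) (φ : A →+* L) w +
        Pool.Agent.W223.AC.mS S (y j) (φ : A →+* L)) := ⟨_, rfl⟩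
  obtain ⟨g, hg⟩ : ∃ g : ℝ, g = degree k y := ⟨_, rfl⟩
  obtain ⟨H, hH⟩ : ∃ H : ℝ, H = Height.logHeight₁ x := ⟨_, rfl⟩
  have h2 : mL * ((g - ε) * H) + W0 ≤ lL + d * mL * Rs + mL * c := by
    rw [hW0, hg, hH, hlL, hRs, ← htow, hmL]
    exact h1
  rw [hpr, ← hW0, ← hRs, ← hg]
  unfold logDisc height
  rw [← hlL, htow, ← hH, ← hd]
  have hdm : 0 < d * mL := mul_pos hd0 hm0
  have h3 : (mL * ((g - ε) * H) + W0) / (d * mL) ≤ (lL + d * mL * Rs + mL * c) / (d * mL) :=
    div_le_div_of_nonneg_right h2 hdm.le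
  have e2 : (mL * ((g - ε) * H) + W0) / (d * mL) = W0 / (d * mL) + g * (H / d) - ε * (H / d) := by
    field_simp
    ring
  have e3 : (lL + d * mL * Rs + mL * c) / (d * mL) = lL / (d * mL) + Rs + c / d := by
    field_simp
  rw [e2, e3] at h3
  linarith

end Pool.Agent.Results.MP_6f1c57_nt.OneExceptionalSet
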