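import Pool.Agent.Results.MP_6f1c57_nt.ProximityAllCurves
import Pool.Agent.Y854.GM.Win

/-!
# The height inequality with proximity function above all numbers of degree `r` with height in short windows

For a curve which is finite over the `t`-line, divisors above `q ≥ 3` rational points, `r ≥ 2` and `0 ≤ κ ≤ q`, let `v ≥ 1`
be a sequence with exponent of convergence at most `τ` (for `v_k = k ^ b` this is `1 / b`, for `v_k = b ^ k` it is `0`) and
`θ < 1`. For all `α > 0` outside a set of Hausdorff dimension at most `(e / (r + 1) + τ) / (1 - θ)`, where `e < r + 1` is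
explicit, and each `C₀`, for all but finitely many `k` the inequality
`m_S(D, P) + (degree - κ) h(x) ≤ d(L) + ∑_{p ∈ S} log p - C₀` holds for ALL algebraic numbers `x` of degree `r` with
`|H(x) ^ (r (r + 1)) - α v_k| ≤ v_k ^ θ`, ALL points `P` of the curve above `x`, over any number field `L`, and ALL finite
sets `S` of primes.
-/

set_option autoImplicit false

namespace Pool.Agent.Results.MP_6f1c57_nt.ProximityWindows

open Polynomial IsDedekindDomain NumberField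
open ProximityAllCurves (height coord proximity logDisc degree alpha exponent exceptional)

/-- the exponent of convergence of the sequence `v` is at most `τ` -/
def ExpLe (v : ℕ → ℝ) (τ : ℝ) : Prop := ∀ t : ℝ, τ < t → Summable (fun n : ℕ => (v n) ^ (-t))

lemma height_eq {f g : ℤ[X]} (hf : Irreducible f) (hg : Irreducible g) (hfd : f.natDegree ≠ 0)
    (hgd : g.natDegree = f.natDegree) {x : ℂ} (hfx : aeval x f = 0) (hgx : aeval x g = 0) : height f = height g := by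
  have hpf : f.IsPrimitive := hf.isPrimitive hfd
  have hpg : g.IsPrimitive := hg.isPrimitive (by rw [hgd]; exact hfd)
  have hfQ : Irreducible (f.map (Int.castRingHom ℚ)) := (IsPrimitive.Int.irreducible_iff_irreducible_map_cast hpf).1 hf
  have hgQ : Irreducible (g.map (Int.castRingHom ℚ)) := (IsPrimitive.Int.irreducible_iff_irreducible_map_cast hpg).1 hg
  have key : ∀ p : ℤ[X], aeval x p = 0 → aeval x (p.map (Int.castRingHom ℚ)) = 0 := by
    intro p hp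
    rw [← hp, aeval_def, aeval_def, eval₂_map]
    congr 1
  have h1 : minpoly ℚ x ∣ f.map (Int.castRingHom ℚ) := minpoly.dvd ℚ x (key f hfx)
  have h2 : minpoly ℚ x ∣ g.map (Int.castRingHom ℚ) := minpoly.dvd ℚ x (key g hgx)
  have hx : IsIntegral ℚ x :=
    IsAlgebraic.isIntegral ⟨f.map (Int.castRingHom ℚ), hfQ.ne_zero, key f hfx⟩
  have h3 : Associated (minpoly ℚ x) (f.map (Int.castRingHom ℚ)) :=
    (minpoly.irreducible hx).associated_of_dvd hfQ h1
  have h4 : f.map (Int.castRingHom ℚ) ∣ g.map (Int.castRingHom ℚ) := h3.symm.dvd.trans h2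
  have h5 : f ∣ g := (IsPrimitive.Int.dvd_iff_map_cast_dvd_map_cast f g hpf).2 h4
  have h6 : Associated f g := hf.associated_of_dvd hg h5
  obtain ⟨w, hw⟩ := h6
  obtain ⟨s, hs, hs2⟩ := Polynomial.isUnit_iff.1 w.isUnit
  have h7 : ((w : ℤ[X]).map (Int.castRingHom ℂ)).mahlerMeasure = 1 := by
    rw [← hs2, map_C, mahlerMeasure_const]
    rcases Int.isUnit_iff.1 hs with h | h
    · rw [h]
      simp
    · rw [h]
      simp
  unfold height
  rw [hgd, ← hw, Polynomial.map_mul, mahlerMeasure_mul, h7, mul_one]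

section

variable {A : Type} [CommRing A] [Algebra ℚ A] [Algebra ℚ[X] A] {q : ℕ}

/-- the polynomial `f` of degree `r` has a root `x` over which the inequality fails -/
def Bad (u : Fin q → ℕ) (y : ∀ j, Fin (u j + 1) → A) (r : ℕ) (κ C₀ : ℝ) (f : ℤ[X]) (x : ℂ) : Prop :=
  Irreducible f ∧ f.natDegree = r ∧ aeval x f = 0 ∧
    ∃ (L : IntermediateField ℚ ℂ) (_ : NumberField L) (φ : A →+* L) (S : Finset ℕ),
      (φ (coord A) : ℂ) = x ∧ (∀ p ∈ S, p.Prime) ∧
      logDisc L + ∑ p ∈ S, Real.log p + C₀ < proximity S u y L φ + (degree u y - κ) * height f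

/-- the values of `H ^ (r (r + 1))` at the exceptional numbers -/
def Val (u : Fin q → ℕ) (y : ∀ j, Fin (u j + 1) → A) (r : ℕ) (κ C₀ : ℝ) : Set ℝ :=
  {z | ∃ (f : ℤ[X]) (x : ℂ), Bad u y r κ C₀ f x ∧ Real.exp (height f) ^ (r * (r + 1)) = z}

lemma count (u : Fin q → ℕ) (y : ∀ j, Fin (u j + 1) → A) {r : ℕ} (hr : 2 ≤ r) (κ C₀ e : ℝ)
    (H : ∀ δ : ℝ, 0 < δ → ∃ C : ℝ, ∀ B : ℝ, 1 ≤ B → (exceptional u y r κ C₀ B).Finite ∧
      ((exceptional u y r κ C₀ B).ncard : ℝ) ≤ C * B ^ ((r : ℝ) * e + δ)) (ε : ℝ) (hε : 0 < ε) :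
    ∃ C : ℝ, ∀ X : ℝ, 1 ≤ X → {z | z ∈ Val u y r κ C₀ ∧ z ≤ X}.Finite ∧
      ({z | z ∈ Val u y r κ C₀ ∧ z ≤ X}.ncard : ℝ) ≤ C * X ^ (max e 0 / (r + 1) + ε) := by
  have hr0 : (0 : ℝ) < r := by exact_mod_cast (by omega : 0 < r)
  have hN0 : (0 : ℝ) < (r : ℝ) * ((r : ℝ) + 1) := by positivity
  obtain ⟨M, hM⟩ := H ((r : ℝ) * ((r : ℝ) + 1) * ε) (by positivity)
  refine ⟨|M|, fun X hX => ?_⟩
  have hX0 : 0 < X := by linarith
  set B : ℝ := X ^ (1 / ((r : ℝ) * ((r : ℝ) + 1))) with hB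
  have hB1 : 1 ≤ B := Real.one_le_rpow hX (by positivity)
  have hB0 : 0 < B := by linarith
  obtain ⟨hfin, hcard⟩ := hM B hB1
  have hch : ∀ z : ℝ, ∃ p : ℤ[X] × ℂ, z ∈ Val u y r κ C₀ →
      Bad u y r κ C₀ p.1 p.2 ∧ Real.exp (height p.1) ^ (r * (r + 1)) = z := by
    intro z
    by_cases hz : z ∈ Val u y r κ C₀
    · obtain ⟨f, x, h1, h2⟩ := hz
      exact ⟨(f, x), fun _ => ⟨h1, h2⟩⟩
    · exact ⟨(0, 0), fun h => absurd h hz⟩
  choose g hg using hch
  have hmaps : ∀ z ∈ {z | z ∈ Val u y r κ C₀ ∧ z ≤ X}, (g z).2 ∈ exceptional u y r κ C₀ B := by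
    rintro z ⟨hz, hzX⟩
    obtain ⟨⟨h1, h2, h3, h4⟩, h5⟩ := hg z hz
    refine ⟨(g z).1, h1, h2, h3, ?_, h4⟩
    have h6 : Real.exp (height (g z).1) ^ (r * (r + 1)) = Real.exp ((r : ℝ) * ((r : ℝ) + 1) * height (g z).1) := by
      rw [← Real.exp_nat_mul]
      push_cast
      rfl
    rw [h6] at h5
    have h7 : Real.exp ((r : ℝ) * ((r : ℝ) + 1) * height (g z).1) ≤ X := by
      rw [h5]
      exact hzX
    rw [← Real.le_log_iff_exp_le hX0] at h7
    have h8 : Real.log B = Real.log X / ((r : ℝ) * ((r : ℝ) + 1)) := by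
      rw [hB, Real.log_rpow hX0]
      ring
    rw [h8, le_div_iff₀ hN0]
    linarith
  have hinj : Set.InjOn (fun z => (g z).2) {z | z ∈ Val u y r κ C₀ ∧ z ≤ X} := by
    rintro z ⟨hz, -⟩ z' ⟨hz', -⟩ h
    obtain ⟨⟨a1, a2, a3, -⟩, a5⟩ := hg z hz
    obtain ⟨⟨b1, b2, b3, -⟩, b5⟩ := hg z' hz'
    have h' : (g z).2 = (g z').2 := h
    rw [← a5, ← b5, height_eq a1 b1 (by omega) (by omega) a3 (h'.symm ▸ b3)]
  have hfin2 : {z | z ∈ Val u y r κ C₀ ∧ z ≤ X}.Finite := Set.Finite.of_injOn hmaps hinj hfin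
  refine ⟨hfin2, ?_⟩
  have h9 : ({z | z ∈ Val u y r κ C₀ ∧ z ≤ X}.ncard : ℝ) ≤ ((exceptional u y r κ C₀ B).ncard : ℝ) := by
    exact_mod_cast Set.ncard_le_ncard_of_injOn (fun z => (g z).2) hmaps hinj hfin
  calc ({z | z ∈ Val u y r κ C₀ ∧ z ≤ X}.ncard : ℝ) ≤ ((exceptional u y r κ C₀ B).ncard : ℝ) := h9
    _ ≤ M * B ^ ((r : ℝ) * e + (r : ℝ) * ((r : ℝ) + 1) * ε) := hcard
    _ ≤ |M| * B ^ ((r : ℝ) * e + (r : ℝ) * ((r : ℝ) + 1) * ε) :=
        mul_le_mul_of_nonneg_right (le_abs_self M) (Real.rpow_nonneg hB0.le _)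
    _ ≤ |M| * B ^ ((r : ℝ) * max e 0 + (r : ℝ) * ((r : ℝ) + 1) * ε) := by
        apply mul_le_mul_of_nonneg_left _ (abs_nonneg M)
        apply Real.rpow_le_rpow_of_exponent_le hB1
        have h1 : (r : ℝ) * e ≤ (r : ℝ) * max e 0 := mul_le_mul_of_nonneg_left (le_max_left _ _) hr0.le
        linarith
    _ = |M| * X ^ (max e 0 / (r + 1) + ε) := by
        rw [hB, ← Real.rpow_mul hX0.le]
        congr 2
        field_simp

end

lemma alpha_nonneg {r : ℕ} (hr : 2 ≤ r) {c η : ℝ} (hc : 1 ≤ c) : 0 ≤ alpha r c η := by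
  have hr0 : (2 : ℝ) ≤ r := by exact_mod_cast hr
  refine le_min ?_ (by positivity)
  have h1 : (0 : ℝ) ≤ (r : ℝ) - 1 := by linarith
  positivity

lemma expo_lt {r q : ℕ} (hr : 2 ≤ r) (hq : 3 ≤ q) {c η κ : ℝ} (hc : 1 ≤ c) (hκ : 0 ≤ κ) :
    exponent (alpha r c η) r q κ < r + 1 := by
  have ha := alpha_nonneg hr hc (η := η)
  have hr0 : (2 : ℝ) ≤ r := by exact_mod_cast hr
  have hq0 : (3 : ℝ) ≤ q := by exact_mod_cast hq
  have hm : (3 : ℝ) ≤ ((min q (r + 1) : ℕ) : ℝ) := by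
    exact_mod_cast (le_min hq (by omega) : 3 ≤ min q (r + 1))
  refine lt_of_le_of_lt (min_le_right _ _) ?_
  set m : ℝ := ((min q (r + 1) : ℕ) : ℝ) with hmdef
  set a : ℝ := alpha r c η with hadef
  have hqa : 0 ≤ (q : ℝ) * a := by positivity
  have hden : 0 < (q : ℝ) * a + m - 2 := by linarith
  rw [div_lt_iff₀ hden]
  have h1 : 0 < m * ((r : ℝ) - 1) := mul_pos (by linarith) (by linarith)
  have h2 : 0 ≤ m * (a * κ) := by positivity
  nlinarith

/-- **Theorem.** For `η > 0` there is `c ≥ 1` such that the following holds. Let `A` be a Dedekind domain, finite over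
`ℚ[t]` and containing it, let `r ≥ 2`, let `a_1, …, a_q` be `q ≥ 3` distinct rational numbers, let
`y_{j 0} = t - a_j, y_{j 1}, …` be elements of the radical of the ideal `(t - a_j)` and `κ ≤ q`. (For `κ ≥ 0` the exponent
`e = exponent (alpha r c η) r q κ` is smaller than `r + 1`.) Let `v ≥ 1` be a sequence of exponent of convergence at most
`τ ≥ 0` and `θ < 1`. There is a set `E` of Hausdorff dimension at most `(max e 0 / (r + 1) + τ) / (1 - θ)` such that for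
each `α > 0` outside `E` and each `C₀`, for all but finitely many `k`: for ALL algebraic numbers `x` of degree `r` (with
irreducible integral polynomial `f` and height `H = exp (height f)`) with `|H ^ (r (r + 1)) - α v_k| ≤ v_k ^ θ`, ALL points
`P = φ` of the curve above `x` over any number field `L` and ALL finite sets `S` of primes
`m_S(F, P) + (degree - κ) h(x) ≤ d(L) + ∑_{p ∈ S} log p - C₀`. The sequences `v_k = (k + 1) ^ b` and `v_k = b ^ k` have
exponent of convergence at most `1 / b` and `0`. -/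
theorem result :
    (∀ η : ℝ, 0 < η → ∃ c : ℝ, 1 ≤ c ∧
      ∀ (A : Type) [CommRing A] [IsDedekindDomain A] [Algebra ℚ A] [Algebra ℚ[X] A]
        [IsScalarTower ℚ ℚ[X] A] [Module.Finite ℚ[X] A] [FaithfulSMul ℚ[X] A]
        (r q : ℕ), 2 ≤ r → 3 ≤ q → ∀ a : Fin q → ℚ, Function.Injective a →
      ∀ (u : Fin q → ℕ) (y : ∀ j, Fin (u j + 1) → A),
      (∀ j, y j 0 = coord A - algebraMap ℚ[X] A (C (a j))) →
      (∀ j i, y j i ∈ (Ideal.span {coord A - algebraMap ℚ[X] A (C (a j))}).radical) →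
      ∀ κ : ℝ, κ ≤ q →
      (0 ≤ κ → exponent (alpha r c η) r q κ < r + 1) ∧
      ∀ (v : ℕ → ℝ) (τ θ : ℝ), (∀ k, 1 ≤ v k) → 0 ≤ τ → ExpLe v τ → θ < 1 →
      ∃ E : Set ℝ, dimH E ≤ ENNReal.ofReal ((max (exponent (alpha r c η) r q κ) 0 / (r + 1) + τ) / (1 - θ)) ∧
        ∀ α : ℝ, 0 < α → α ∉ E → ∀ C₀ : ℝ, ∃ k₀ : ℕ, ∀ k : ℕ, k₀ ≤ k → ∀ (x : ℂ) (f : ℤ[X]),
          Irreducible f → f.natDegree = r → aeval x f = 0 →
          |Real.exp (height f) ^ (r * (r + 1)) - α * v k| ≤ (v k) ^ θ →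
            ∀ (L : IntermediateField ℚ ℂ) [NumberField L] (φ : A →+* L) (S : Finset ℕ),
              (φ (coord A) : ℂ) = x → (∀ p ∈ S, p.Prime) →
              proximity S u y L φ + (degree u y - κ) * height f ≤ logDisc L + ∑ p ∈ S, Real.log p - C₀) ∧
    (∀ b : ℝ, 0 < b → ExpLe (fun n : ℕ => ((n : ℝ) + 1) ^ b) (1 / b)) ∧
    (∀ b : ℝ, 1 < b → ExpLe (fun n : ℕ => b ^ n) 0) := by
  refine ⟨fun η hη => ?_, fun κ hκ => Pool.Agent.Y854.GM.expLe_pow κ hκ,
    fun b hb => Pool.Agent.Y854.GM.expLe_geom b hb⟩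
  obtain ⟨c, hc, hmain⟩ := ProximityAllCurves.result η hη
  refine ⟨c, hc, fun A _ _ _ _ _ _ _ r q hr hq a ha u y hy0 hy κ hκ =>
    ⟨fun h0 => expo_lt hr hq hc h0, fun v τ θ hv hτ hE hθ1 => ?_⟩⟩
  have hall : ∀ j : ℕ, ∃ E : Set ℝ,
      dimH E ≤ ENNReal.ofReal ((max (exponent (alpha r c η) r q κ) 0 / (r + 1) + τ) / (1 - θ)) ∧
      ∀ α : ℝ, 0 < α → α ∉ E → ∃ n0 : ℕ, ∀ k : ℕ, n0 ≤ k → ∀ z ∈ Val u y r κ (-(j : ℝ)),
        (v k) ^ θ < |z - α * v k| := fun j =>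
    Pool.Agent.Y854.GM.windows (Val u y r κ (-(j : ℝ))) (fun z => z) hv hτ hE
      (div_nonneg (le_max_right _ _) (by positivity)) hθ1
      (fun ε hε => count u y hr κ (-(j : ℝ)) _
        (fun δ hδ => hmain A r q hr hq a ha u y hy0 hy κ (-(j : ℝ)) δ hκ hδ) ε hε)
  choose G hG1 hG2 using hall
  refine ⟨⋃ j, G j, ?_, fun α hα hαE C₀ => ?_⟩
  · rw [dimH_iUnion]
    exact iSup_le hG1
  · obtain ⟨j, hj⟩ := exists_nat_ge C₀
    obtain ⟨k₀, hk⟩ := hG2 j α hα (fun h => hαE (Set.mem_iUnion.2 ⟨j, h⟩))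
    refine ⟨k₀, fun k hk1 x f hf hfr hfx hw L hL φ S hφ hS => ?_⟩
    by_contra hcon
    push Not at hcon
    refine absurd (hk k hk1 _ ⟨f, x, ⟨hf, hfr, hfx, L, hL, φ, S, hφ, hS, ?_⟩, rfl⟩) (not_lt.2 hw)
    linarith

end Pool.Agent.Results.MP_6f1c57_nt.ProximityWindows
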