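import Mathlib
import Pool.Agent.Y724.T4.EXC

set_option autoImplicit false

/-!
# Vojta's height inequality on curves, with the exact discriminant and without exceptional points, for
# the algebraic points of bounded degree with sparse coordinates in a sparse order

`C` is a smooth projective curve over `ℚ` in `ℙ^(s + 1)` with the equations `G k = 0`, and
`D = D_1 + ⋯ + D_q` a reduced effective divisor on `C`, `D_i` the set of the points of `C` with
`F i j = 0` for all `j < w`, `F i j` of degree `d i j`. (`D = 0`, `q = 0`, is allowed.)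
-/

namespace Pool.Agent.Results.MP_6f1c57_nt.SparsePointsOnCurves

open MvPolynomial NumberField

/-! ### The curve and the divisor -/

/-- `C` is an irreducible curve over `ℚ`: two coordinates are algebraically independent on the cone
over `C`, and a form with rational coefficients that does not vanish on `C` has only finitely many
zeros on `C`. -/
def IsCurve {M g : ℕ} (G : Fin g → MvPolynomial (Fin M) ℤ) : Prop :=
  (∃ J : Fin (1 + 1) → Fin M, ∀ P : MvPolynomial (Fin (1 + 1)) ℚ,
    (∀ z : Fin M → ℂ, (∀ k, aeval z (G k) = 0) → aeval (fun i => z (J i)) P = 0) → P = 0) ∧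
  ∀ (Φ : MvPolynomial (Fin M) ℚ) (k : ℕ), Φ.IsHomogeneous k →
    (∃ z : Fin M → ℂ, (∀ k, aeval z (G k) = 0) ∧ aeval z Φ ≠ 0) →
    {P : Projectivization ℂ (Fin M → ℂ) | ∃ (z : Fin M → ℂ) (hz : z ≠ 0),
      P = Projectivization.mk ℂ z hz ∧ (∀ k, aeval z (G k) = 0) ∧ aeval z Φ = 0}.Finite

/-- `C` is smooth of codimension `s` and `D` has no multiple points: at every complex point `z` of
`C`, for suitable `s` equations of `C` and one equation of each component of `D` through `z`, all
gradients at `z` are linearly independent. -/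
def SmoothPair {M g q w : ℕ} (s : ℕ) (G : Fin g → MvPolynomial (Fin M) ℤ)
    (F : Fin q → Fin w → MvPolynomial (Fin M) ℤ) : Prop :=
  ∀ z : Fin M → ℂ, z ≠ 0 → (∀ k, aeval z (G k) = 0) →
    ∃ (K : Fin s → Fin g) (J : Fin q → Fin w),
      LinearIndependent ℂ (Sum.elim
        (fun a : Fin s => fun y : Fin M => aeval z (pderiv y (G (K a))))
        (fun i : {i : Fin q // ∀ j, aeval z (F i j) = 0} => fun y : Fin M =>
          aeval z (pderiv y (F i.1 (J i.1)))))

section field
variable {K : Type} [Field K]

/-- `x` represents a point of the curve `C` over the field `K` -/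
def OnCurve {M g : ℕ} (G : Fin g → MvPolynomial (Fin M) ℤ) (x : Fin M → K) : Prop :=
  ∀ k, aeval x (G k) = 0

/-- The local height at the absolute value `v` of the closed subset with the equations `F j = 0`: minus
the logarithm of `max_j (|F j x|_v / max_i |x_i|_v ^ d j)`. -/
noncomputable def localHeight {M w : ℕ} (F : Fin w → MvPolynomial (Fin M) ℤ) (d : Fin w → ℕ)
    (x : Fin M → K) (v : AbsoluteValue K ℝ) : ℝ :=
  -Real.log (⨆ j, v (aeval x (F j)) / (⨆ i, v (x i)) ^ d j)

/-- The two columns of `T` are a basis of the tangent plane of the affine cone over `C` at `x` (the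
vectors orthogonal to all gradients of equations), `C` being smooth at `x`. -/
def IsTangentBasis {M g : ℕ} (G : Fin g → MvPolynomial (Fin M) ℤ) (x : Fin M → K)
    (T : Matrix (Fin M) (Fin (1 + 1)) K) : Prop :=
  LinearIndependent K (fun c : Fin (1 + 1) => fun j : Fin M => T j c) ∧
    ∀ k c, ∑ j, aeval x (pderiv j (G k)) * T j c = 0

variable [NumberField K]

variable (K) in
/-- the finite places of `K` over the primes in `S` -/
def placesOver (S : Finset ℕ) : Set (FinitePlace K) :=
  {v | ∃ p ∈ S, v (p : K) < 1}

/-- The proximity function `m_{S,D}(x)` of `D = D_1 + ⋯ + D_q` for the infinite place and the primes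
`p ∈ S`: the average over the places of `K` above them. (Mathlib's absolute value of a finite place
is normalised so that the product formula holds without exponents.) -/
noncomputable def proximity {M q w : ℕ} (F : Fin q → Fin w → MvPolynomial (Fin M) ℤ)
    (d : Fin q → Fin w → ℕ) (S : Finset ℕ) (x : Fin M → K) : ℝ :=
  (∑ i, (∑ v : InfinitePlace K, v.mult * localHeight (F i) (d i) x v.1 +
    ∑ᶠ v ∈ placesOver K S, localHeight (F i) (d i) x v.1)) / Module.finrank ℚ K

/-- the absolute logarithmic height of the point with the homogeneous coordinates `x` -/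
noncomputable def height {M : ℕ} (x : Fin M → K) : ℝ :=
  Height.logHeight x / Module.finrank ℚ K

/-- The height `h_K(x)` for the canonical class `K` of `C`. The Gauss map `γ` sends a point of `C` to
its embedded tangent line, `γ^* O(1) = K + 2 H` for the hyperplane class `H`, and `h_K(x)` is
the height of `γ(x)` (whose Plücker coordinates are the `2 × 2`-minors of `T`) minus `2 h(x)`. -/
noncomputable def canonicalHeight {M : ℕ} (x : Fin M → K) (T : Matrix (Fin M) (Fin (1 + 1)) K) : ℝ :=
  (Height.logHeight (fun J : Fin (1 + 1) → Fin M => (T.submatrix J id).det) -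
    2 * Height.logHeight x) / Module.finrank ℚ K

variable (K) in
/-- the logarithmic discriminant `d(K)` -/
noncomputable def logDisc : ℝ :=
  Real.log |((NumberField.discr K : ℤ) : ℝ)| / Module.finrank ℚ K

/-- The parameters of the vector `x` in the number field with the basis `ω`: the structure constants
of `ω` (the coordinates of the products `ω i * ω j`) and the coordinates of the `x y` in the
basis. -/
noncomputable def params {n M : ℕ} (ω : Module.Basis (Fin n) ℚ K) (x : Fin M → K) :
    (Fin n × Fin n × Fin n) ⊕ (Fin M × Fin n) → ℚ :=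
  Sum.elim (fun t => ω.repr (ω t.1 * ω t.2.1) t.2.2) (fun t => ω.repr (x t.1) t.2)

/-- All algebraic integers of `K` are combinations of the `ω i` with `S`-integral coefficients. If
the structure constants of `ω` are `S`-integral as well, then `ω` is a basis over `ℤ_S` of the ring
of `S`-integers of `K`. -/
def SpansIntegers {n : ℕ} (S : Finset ℕ) (ω : Module.Basis (Fin n) ℚ K) : Prop :=
  ∀ (y : 𝓞 K) (i : Fin n) (p : ℕ), p.Prime → p ∣ (ω.repr (y : K) i).den → p ∈ S

end field

/-! ### Short sums of `S`-units -/

/-- `u` is an `S`-unit: plus or minus a product of powers (with integer exponents) of the primes in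
`S` -/
def IsSUnit (S : Finset ℕ) (u : ℚ) : Prop :=
  ∃ (σ : ℤ) (e : ℕ → ℤ), (σ = 1 ∨ σ = -1) ∧ u = σ * ∏ p ∈ S, (p : ℚ) ^ e p

/-- the maximum of the absolute values of the numerators and denominators of the `z i` -/
def size {ι : Type} [Fintype ι] (z : ι → ℚ) : ℕ :=
  Finset.univ.sup (fun i => max (z i).num.natAbs (z i).den)

/-- The rational vector `z` is a sum of `l` integer vectors with entries of absolute value at most
`B * H ^ δ`, `H` the size of `z`, multiplied by `S`-units. -/
def IsShortSum {ι : Type} [Fintype ι] (S : Finset ℕ) (l : ℕ) (B δ : ℝ) (z : ι → ℚ) : Prop :=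
  ∃ (u : Fin l → ℚ) (m : Fin l → ι → ℤ), (∀ j, IsSUnit S (u j)) ∧
    (∀ j i, |(m j i : ℝ)| ≤ B * (size z : ℝ) ^ δ) ∧ ∀ i, z i = ∑ j, u j * m j i

/-- **Main theorem.** Let `C` be a smooth irreducible projective curve over `ℚ` in `ℙ^(s + 1)` and `D`
an effective divisor on `C` over `ℚ` without multiple points. Let `S` be a finite set of primes, `r`
and `l` natural numbers, `A`, `B` and `ε > 0` real numbers. There are `δ > 0` and a constant `c` such
that `m_{S,D}(x) + h_K(x) ≤ d(K) + ε h(x) + c` for all number fields `K` of degree `n ≤ r` and ALL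
points `x` of `C` over `K` off `D` which are sparse: for some basis `ω` of the `S`-integers of `K` the
structure constants of `ω` and the coordinates of `x` with respect to `ω` together form a sum of `l`
integer vectors with entries of absolute value at most `B H ^ δ` multiplied by `S`-units, and
`log H ≤ A (h(x) + 1)`, where `H` is the size of these parameters. -/
theorem result (s g q w : ℕ) (G : Fin g → MvPolynomial (Fin (1 + s + 1)) ℤ) (e : Fin g → ℕ)
    (hG : ∀ k, (G k).IsHomogeneous (e k)) (F : Fin q → Fin w → MvPolynomial (Fin (1 + s + 1)) ℤ)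
    (d : Fin q → Fin w → ℕ) (hF : ∀ i j, (F i j).IsHomogeneous (d i j))
    (hC : IsCurve G) (hsm : SmoothPair s G F) (S : Finset ℕ) (hS : ∀ p ∈ S, p.Prime)
    (r l : ℕ) (A B ε : ℝ) (hε : 0 < ε) :
    ∃ (δ c : ℝ), 0 < δ ∧
      ∀ (n : ℕ), n ≤ r → ∀ (K : Type) [Field K] [NumberField K] (ω : Module.Basis (Fin n) ℚ K)
        (x : Fin (1 + s + 1) → K), x ≠ 0 → OnCurve G x → (∀ i, ∃ j, aeval x (F i j) ≠ 0) →
        SpansIntegers S ω → IsShortSum S l B δ (params ω x) →
        Real.log (size (params ω x)) ≤ A * (height x + 1) →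
        ∀ T : Matrix (Fin (1 + s + 1)) (Fin (1 + 1)) K, IsTangentBasis G x T →
          proximity F d S x + canonicalHeight x T ≤ logDisc K + ε * height x + c := by
  obtain ⟨δ, Φ, k, C, hδ, hΦh, hΦ0, hmain⟩ := Pool.Agent.Y724.T4.R6.main6 1 s g q w G e hG F d hF
    hC.1 hsm S hS r l A B ε hε
  obtain ⟨C', hC'⟩ := Pool.Agent.Y724.T4.exc_bound (N := 1) G e hG F d hF hsm S Φ
    (hC.2 Φ k hΦh hΦ0)
  refine ⟨δ, |C| + 2 * |C'|, hδ, ?_⟩
  intro n hn K _ _ ω x hx hX hD hspan hshort hlog T hT
  have hcan : Pool.Agent.Y724.T4.R6.canonicalHeight x T = canonicalHeight x T := by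
    unfold Pool.Agent.Y724.T4.R6.canonicalHeight canonicalHeight
    norm_num
  by_cases hΦ : aeval x Φ = 0
  · obtain ⟨h1, h2⟩ := hC' K x hx hX hΦ
    obtain ⟨h3, h4⟩ := h2 T hT
    have h5 : proximity F d S x ≤ C' := h4 hD
    rw [hcan] at h3
    have hD0 : 0 ≤ logDisc K := by
      refine div_nonneg (Real.log_nonneg ?_) (Nat.cast_nonneg _)
      have h1 : (1 : ℤ) ≤ |NumberField.discr K| := Int.one_le_abs (NumberField.discr_ne_zero K)
      have h2 : ((1 : ℤ) : ℝ) ≤ ((|NumberField.discr K| : ℤ) : ℝ) := by exact_mod_cast h1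
      rwa [Int.cast_abs, Int.cast_one] at h2
    have hh0 : 0 ≤ height x := div_nonneg (Height.logHeight_nonneg _) (Nat.cast_nonneg _)
    have h6 : 0 ≤ ε * height x := mul_nonneg hε.le hh0
    have h7 := le_abs_self C'
    have h8 := abs_nonneg C
    linarith
  · have h1 := (hmain n hn K ω x hX hshort hΦ hD T hT).2 hspan hlog
    rw [hcan] at h1
    have h2 : Pool.Agent.Y724.T4.R6.proximity F d S x = proximity F d S x := rfl
    have h3 : Pool.Agent.Y724.T4.R6.logDisc K = logDisc K := rfl
    have h4 : Pool.Agent.Y724.T4.R6.height x = height x := rfl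
    rw [h2, h3, h4] at h1
    have h7 := le_abs_self C
    have h8 := abs_nonneg C'
    linarith

end Pool.Agent.Results.MP_6f1c57_nt.SparsePointsOnCurves
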